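import Pool.Agent.OPG.Stmts

set_option autoImplicit false

namespace Pool.Agent.OPG.H15

theorem part1 {M A S : ℤ} (hA : 100 ≤ A) (hS : 100 ≤ S) (h1 : A * S ≤ M) (u t : ℤ)
    (h : TT M A u t) : 0 ≤ t ∧ t * S ≤ 5 * A := by
  obtain ⟨ha, hb, hc, hd⟩ := h
  have ht : 0 ≤ t := by linarith
  refine ⟨ht, ?_⟩
  have hM : 0 < M := lt_of_lt_of_le (by positivity) h1
  have hAS : A * S ≤ u := by linarith
  have e1 : t * (A * S) ≤ t * u := mul_le_mul_of_nonneg_left hAS ht
  have e2 : (u - M + 1) ^ 2 ≤ (2 * A + 1) ^ 2 := by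
    apply pow_le_pow_left₀ (by linarith)
    linarith
  have e3 : (2 * A + 1) ^ 2 ≤ 5 * A ^ 2 := by nlinarith
  have e4 : A * (t * S) ≤ A * (5 * A) := by
    calc A * (t * S) = t * (A * S) := by ring
      _ ≤ t * u := e1
      _ ≤ (u - M + 1) ^ 2 := hc
      _ ≤ 5 * A ^ 2 := e2.trans e3
      _ = A * (5 * A) := by ring
  exact le_of_mul_le_mul_left e4 (by linarith)

/-- the difference of the two errors -/
theorem diff (M u t d h : ℤ) :
    ((u + d - M + 1) ^ 2 - (t + h) * (u + d)) - ((u - M + 1) ^ 2 - t * u) =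
      d * (2 * (u - M + 1) + d - (t + h)) - h * u := by ring

theorem part2 {M A S : ℤ} (hA : 100 ≤ A) (hS : 100 ≤ S) (h1 : A * S ≤ M) (h2 : M < (A + 1) * S)
    (u t d h : ℤ) (hd : 2 ≤ d) (hu : TT M A u t) (hu' : TT M A (u + d) (t + h)) :
    d ≤ h * S ∧ h * S ≤ 5 * d := by
  have p1 := part1 hA hS h1 u t hu
  have p2 := part1 hA hS h1 (u + d) (t + h) hu'
  obtain ⟨ha, hb, hc, hd1⟩ := hu
  obtain ⟨ha', hb', hc', hd'⟩ := hu'
  have hdf := diff M u t d h
  have ht : 20 * t ≤ A := by nlinarith [p1.1, p1.2]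
  have hth : 20 * (t + h) ≤ A := by nlinarith [p2.1, p2.2]
  have hu0 : 0 < u := by nlinarith
  have huAS : A * S ≤ u := by linarith
  have hu103 : 100 * u ≤ 103 * (A * S) := by nlinarith
  set e1 := (u - M + 1) ^ 2 - t * u with he1
  set e2 := (u + d - M + 1) ^ 2 - (t + h) * (u + d) with he2
  have b1 : 0 ≤ e1 := by rw [he1]; linarith
  have b2 : e1 ≤ 2 * t := by rw [he1]; linarith
  have b3 : 0 ≤ e2 := by rw [he2]; linarith
  have b4 : e2 ≤ 2 * (t + h) := by rw [he2]; linarith
  have hα : A + 1 ≤ u - M + 1 := by linarith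
  have hα' : u - M + 1 + d ≤ 2 * A + 1 := by linarith
  -- lower bound
  have low : 38 * (d * A) ≤ 20 * (h * u) := by
    have c1 : d * (40 * A + 40 - A) ≤ 20 * (d * (2 * (u - M + 1) + d - (t + h))) := by
      have : 40 * A + 40 - A ≤ 20 * (2 * (u - M + 1) + d - (t + h)) := by linarith
      calc d * (40 * A + 40 - A) ≤ d * (20 * (2 * (u - M + 1) + d - (t + h))) :=
            mul_le_mul_of_nonneg_left this (by linarith)
        _ = _ := by ring
    nlinarith
  have up : h * u ≤ d * (4 * A + 2) + A := by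
    have c1 : d * (2 * (u - M + 1) + d - (t + h)) ≤ d * (4 * A + 2) := by
      apply mul_le_mul_of_nonneg_left _ (by linarith)
      linarith [p2.1]
    linarith
  have hdA : 0 < d * A := by positivity
  have hh : 0 < h := by
    by_contra hcon
    push Not at hcon
    have : h * u ≤ 0 := mul_nonpos_of_nonpos_of_nonneg hcon hu0.le
    linarith
  constructor
  · by_contra hcon
    push Not at hcon
    have c1 : h * S * u ≤ (d - 1) * u := mul_le_mul_of_nonneg_right (by linarith) hu0.le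
    have c2 : 38 * (d * A) * S ≤ 20 * (h * u) * S := mul_le_mul_of_nonneg_right low (by linarith)
    have c3 : d * (100 * u) ≤ d * (103 * (A * S)) := mul_le_mul_of_nonneg_left hu103 (by linarith)
    nlinarith
  · have c1 : h * (A * S) ≤ h * u := mul_le_mul_of_nonneg_left huAS hh.le
    have c2 : A * (h * S) ≤ A * (5 * d) := by nlinarith
    exact le_of_mul_le_mul_left c2 (by linarith)

theorem ct2 : Ct2Stmt := by
  intro M A S hA hS h1 h2
  refine ⟨fun u t h => part1 hA hS h1 u t h,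
    fun u t d h hd hu hu' => part2 hA hS h1 h2 u t d h hd hu hu', ?_⟩
  intro u t v r d h hd hvu hu hu' hv hv'
  have q1 := part2 hA hS h1 h2 u t d h hd hu hu'
  have q2 := part2 hA hS h1 h2 v r (u - v) (t - r) (by linarith) hv
    (by rwa [show v + (u - v) = u by ring, show r + (t - r) = t by ring])
  have p1 := part1 hA hS h1 u t hu
  have p2 := part1 hA hS h1 (u + d) (t + h) hu'
  have p3 := part1 hA hS h1 v r hv
  have p4 := part1 hA hS h1 (v + d) (r + h) hv'
  obtain ⟨-, -, a1, a2⟩ := hu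
  obtain ⟨-, -, a3, a4⟩ := hu'
  obtain ⟨-, -, a5, a6⟩ := hv
  obtain ⟨-, -, a7, a8⟩ := hv'
  have d1 := diff M u t d h
  have d2 := diff M v r d h
  -- the key inequality
  have key : (2 * d - h) * (u - v) - d * (t - r) ≤ 2 * (t + h) + 2 * r := by
    nlinarith
  have hSp : 0 < S := by linarith
  have k1 : ((2 * d - h) * (u - v) - d * (t - r)) * S ≤ 20 * A := by
    calc ((2 * d - h) * (u - v) - d * (t - r)) * S ≤ (2 * (t + h) + 2 * r) * S :=
          mul_le_mul_of_nonneg_right key hSp.le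
      _ = 2 * ((t + h) * S) + 2 * (r * S) := by ring
      _ ≤ 20 * A := by linarith [p2.2, p3.2]
  have hh : 20 * h ≤ d := by nlinarith [q1.1, q1.2]
  have htr : 20 * (t - r) ≤ u - v := by
    by_cases hneg : t - r ≤ 0
    · linarith
    · push Not at hneg
      nlinarith [q2.2]
  have k2 : 19 * (d * (u - v)) ≤ 10 * ((2 * d - h) * (u - v) - d * (t - r)) := by
    have c1 : h * (u - v) * 20 ≤ d * (u - v) := by nlinarith
    have c2 : d * (t - r) * 20 ≤ d * (u - v) := by nlinarith
    nlinarith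
  have k3 : 19 * (d * (u - v)) * S ≤ 10 * ((2 * d - h) * (u - v) - d * (t - r)) * S :=
    mul_le_mul_of_nonneg_right k2 hSp.le
  nlinarith

end Pool.Agent.OPG.H15
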